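import Mathlib

set_option autoImplicit false

/-!
# Optimum interval partitions without a min-max block (MP_2af528_co)

The poset has the elements `x`, `m₁, m₂`, `u₁, u₂, u₃`, `v₁, v₂, v₃`, `y₁, y₂` (numbered
`0, …, 10`), with least element `x` and `m₁ < uᵢ < y₁`, `m₂ < vᵢ < y₂`, `m₁ < y₂`, `m₂ < y₁`. It has
the interval partition `{x}`, `[m₁, y₁]`, `[m₂, y₂]` with three blocks, and every interval partition
with a block `[x, y₁]` or `[x, y₂]` has at least four blocks.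
-/

namespace Pool.Agent.Results.MP_2af528_co.NoMinMaxBlock

/-- `F` is an interval partition of the poset `S`: its members are intervals `[x, y]` with `x ≤ y`,
they are pairwise disjoint and their union is `S`. -/
def IsIntervalPartition {S : Type} [PartialOrder S] (F : Finset (Set S)) : Prop :=
  (∀ b ∈ F, ∃ x y : S, x ≤ y ∧ b = Set.Icc x y) ∧
    (∀ b ∈ F, ∀ b' ∈ F, b ≠ b' → Disjoint b b') ∧ ∀ z : S, ∃ b ∈ F, z ∈ b

/-- `F` is an optimum interval partition: it has the least number of blocks. -/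
def IsOptimum {S : Type} [PartialOrder S] (F : Finset (Set S)) : Prop :=
  IsIntervalPartition F ∧ ∀ G : Finset (Set S), IsIntervalPartition G → F.card ≤ G.card

/-- The eleven points of the counterexample. -/
def Pt : Type := Fin 11

instance : Fintype Pt := inferInstanceAs (Fintype (Fin 11))
instance : DecidableEq Pt := inferInstanceAs (DecidableEq (Fin 11))

/-- The principal down-sets. -/
def dn : Fin 11 → Finset (Fin 11) :=
  ![{0}, {0, 1}, {0, 2}, {0, 1, 3}, {0, 1, 4}, {0, 1, 5}, {0, 2, 6}, {0, 2, 7}, {0, 2, 8},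
    {0, 1, 2, 3, 4, 5, 9}, {0, 1, 2, 6, 7, 8, 10}]

/-- The order relation: `a` lies in the principal down-set of `b`. -/
def leb (a b : Fin 11) : Bool := decide (a ∈ dn b)

instance : PartialOrder Pt where
  le a b := leb a b = true
  le_refl := by
    show ∀ a : Fin 11, leb a a = true
    decide
  le_trans := by
    show ∀ a b c : Fin 11, leb a b = true → leb b c = true → leb a c = true
    decide
  le_antisymm := by
    show ∀ a b : Fin 11, leb a b = true → leb b a = true → a = b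
    decide

instance : DecidableLE Pt := fun a b => inferInstanceAs (Decidable (leb a b = true))

/-- the points -/
abbrev pt (i : Fin 11) : Pt := i

lemma partition_three : ∃ G : Finset (Set Pt), IsIntervalPartition G ∧ G.card ≤ 3 := by
  classical
  refine ⟨{Set.Icc (pt 0) (pt 0), Set.Icc (pt 1) (pt 9), Set.Icc (pt 2) (pt 10)}, ⟨?_, ?_, ?_⟩,
    Finset.card_le_three⟩
  · intro b hb
    simp only [Finset.mem_insert, Finset.mem_singleton] at hb
    rcases hb with rfl | rfl | rfl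
    · exact ⟨_, _, by decide, rfl⟩
    · exact ⟨_, _, by decide, rfl⟩
    · exact ⟨_, _, by decide, rfl⟩
  · have h1 : Disjoint (Set.Icc (pt 0) (pt 0)) (Set.Icc (pt 1) (pt 9)) := by
      rw [Set.disjoint_left]
      have : ∀ a : Pt, (pt 0 ≤ a ∧ a ≤ pt 0) → ¬ (pt 1 ≤ a ∧ a ≤ pt 9) := by decide
      exact fun a => this a
    have h2 : Disjoint (Set.Icc (pt 0) (pt 0)) (Set.Icc (pt 2) (pt 10)) := by
      rw [Set.disjoint_left]
      have : ∀ a : Pt, (pt 0 ≤ a ∧ a ≤ pt 0) → ¬ (pt 2 ≤ a ∧ a ≤ pt 10) := by decide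
      exact fun a => this a
    have h3 : Disjoint (Set.Icc (pt 1) (pt 9)) (Set.Icc (pt 2) (pt 10)) := by
      rw [Set.disjoint_left]
      have : ∀ a : Pt, (pt 1 ≤ a ∧ a ≤ pt 9) → ¬ (pt 2 ≤ a ∧ a ≤ pt 10) := by decide
      exact fun a => this a
    intro b hb b' hb' hne
    simp only [Finset.mem_insert, Finset.mem_singleton] at hb hb'
    rcases hb with rfl | rfl | rfl <;> rcases hb' with rfl | rfl | rfl
    · exact absurd rfl hne
    · exact h1
    · exact h2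
    · exact h1.symm
    · exact absurd rfl hne
    · exact h3
    · exact h2.symm
    · exact h3.symm
    · exact absurd rfl hne
  · intro z
    have h : ∀ z : Pt, (pt 0 ≤ z ∧ z ≤ pt 0) ∨ (pt 1 ≤ z ∧ z ≤ pt 9) ∨ (pt 2 ≤ z ∧ z ≤ pt 10) := by
      decide
    rcases h z with h | h | h
    · exact ⟨Set.Icc (pt 0) (pt 0), Finset.mem_insert_self _ _, h⟩
    · exact ⟨Set.Icc (pt 1) (pt 9), Finset.mem_insert_of_mem (Finset.mem_insert_self _ _), h⟩
    · exact ⟨Set.Icc (pt 2) (pt 10),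
        Finset.mem_insert_of_mem (Finset.mem_insert_of_mem (Finset.mem_singleton_self _)), h⟩

lemma four_blocks {F : Finset (Set Pt)} (hF : IsIntervalPartition F) {c : Set Pt} (hc : c ∈ F)
    (a1 a2 a3 : Pt) (hn1 : a1 ∉ c) (hn2 : a2 ∉ c) (hn3 : a3 ∉ c)
    (h12 : ∀ p : Pt, p ≤ a1 → p ≤ a2 → p ∈ c) (h13 : ∀ p : Pt, p ≤ a1 → p ≤ a3 → p ∈ c)
    (h23 : ∀ p : Pt, p ≤ a2 → p ≤ a3 → p ∈ c) : 4 ≤ F.card := by
  classical
  obtain ⟨hI, hD, hU⟩ := hF
  obtain ⟨b1, hb1, hab1⟩ := hU a1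
  obtain ⟨b2, hb2, hab2⟩ := hU a2
  obtain ⟨b3, hb3, hab3⟩ := hU a3
  have key : ∀ b ∈ F, ∀ a a' : Pt, a ∈ b → a' ∈ b → a ∉ c → (∀ p : Pt, p ≤ a → p ≤ a' → p ∈ c) →
      False := by
    intro b hb a a' ha ha' hac hp
    obtain ⟨x, y, hxy, rfl⟩ := hI b hb
    have h1 : x ∈ c := hp x ha.1 ha'.1
    have h2 : Set.Icc x y ≠ c := fun h => hac (h ▸ ha)
    exact Set.disjoint_left.mp (hD _ hb _ hc h2) ⟨le_rfl, hxy⟩ h1
  have n1 : c ≠ b1 := fun h => hn1 (h ▸ hab1)
  have n2 : c ≠ b2 := fun h => hn2 (h ▸ hab2)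
  have n3 : c ≠ b3 := fun h => hn3 (h ▸ hab3)
  have n12 : b1 ≠ b2 := fun h => key b1 hb1 a1 a2 hab1 (h ▸ hab2) hn1 h12
  have n13 : b1 ≠ b3 := fun h => key b1 hb1 a1 a3 hab1 (h ▸ hab3) hn1 h13
  have n23 : b2 ≠ b3 := fun h => key b2 hb2 a2 a3 hab2 (h ▸ hab3) hn2 h23
  have hsub : ({c, b1, b2, b3} : Finset (Set Pt)) ⊆ F := by
    intro b hb
    simp only [Finset.mem_insert, Finset.mem_singleton] at hb
    rcases hb with rfl | rfl | rfl | rfl <;> assumption
  have hcard : ({c, b1, b2, b3} : Finset (Set Pt)).card = 4 := by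
    rw [Finset.card_insert_of_notMem, Finset.card_insert_of_notMem, Finset.card_insert_of_notMem,
      Finset.card_singleton]
    · simpa using n23
    · simp only [Finset.mem_insert, Finset.mem_singleton, not_or]
      exact ⟨n12, n13⟩
    · simp only [Finset.mem_insert, Finset.mem_singleton, not_or]
      exact ⟨n1, n2, n3⟩
  rw [← hcard]
  exact Finset.card_le_card hsub

/-- There is a finite nonempty poset `S` such that no optimum interval partition of `S` has a block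
`[x, y]` with `x` minimal and `y` maximal in `S`. -/
theorem result : ∃ (S : Type) (_ : Fintype S) (_ : Nonempty S) (_ : PartialOrder S),
    ∀ F : Finset (Set S), IsOptimum F →
      ¬ ∃ x y : S, IsMin x ∧ IsMax y ∧ x ≤ y ∧ Set.Icc x y ∈ F := by
  refine ⟨Pt, inferInstance, ⟨pt 0⟩, inferInstance, ?_⟩
  rintro F ⟨hF, hopt⟩ ⟨x, y, hx, hy, -, hmem⟩
  obtain ⟨G, hQ, hQ3⟩ := partition_three
  have h3 : F.card ≤ 3 := (hopt G hQ).trans hQ3
  have hx0 : x = pt 0 := by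
    have h0 : ∀ z : Pt, pt 0 ≤ z := by decide
    exact le_antisymm (hx (h0 x)) (h0 x)
  have hy0 : y = pt 9 ∨ y = pt 10 := by
    have h0 : ∀ z : Pt, z ≤ pt 9 ∨ z ≤ pt 10 := by decide
    rcases h0 y with h | h
    · left; exact le_antisymm h (hy h)
    · right; exact le_antisymm h (hy h)
  subst hx0
  rcases hy0 with rfl | rfl
  · have := four_blocks hF hmem (pt 6) (pt 7) (pt 8)
      (show ¬ (pt 0 ≤ pt 6 ∧ pt 6 ≤ pt 9) by decide) (show ¬ (pt 0 ≤ pt 7 ∧ pt 7 ≤ pt 9) by decide)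
      (show ¬ (pt 0 ≤ pt 8 ∧ pt 8 ≤ pt 9) by decide)
      (show ∀ p : Pt, p ≤ pt 6 → p ≤ pt 7 → (pt 0 ≤ p ∧ p ≤ pt 9) by decide)
      (show ∀ p : Pt, p ≤ pt 6 → p ≤ pt 8 → (pt 0 ≤ p ∧ p ≤ pt 9) by decide)
      (show ∀ p : Pt, p ≤ pt 7 → p ≤ pt 8 → (pt 0 ≤ p ∧ p ≤ pt 9) by decide)
    omega
  · have := four_blocks hF hmem (pt 3) (pt 4) (pt 5)
      (show ¬ (pt 0 ≤ pt 3 ∧ pt 3 ≤ pt 10) by decide) (show ¬ (pt 0 ≤ pt 4 ∧ pt 4 ≤ pt 10) by decide)
      (show ¬ (pt 0 ≤ pt 5 ∧ pt 5 ≤ pt 10) by decide)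
      (show ∀ p : Pt, p ≤ pt 3 → p ≤ pt 4 → (pt 0 ≤ p ∧ p ≤ pt 10) by decide)
      (show ∀ p : Pt, p ≤ pt 3 → p ≤ pt 5 → (pt 0 ≤ p ∧ p ≤ pt 10) by decide)
      (show ∀ p : Pt, p ≤ pt 4 → p ≤ pt 5 → (pt 0 ≤ p ∧ p ≤ pt 10) by decide)
    omega

end Pool.Agent.Results.MP_2af528_co.NoMinMaxBlock
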